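import Pool.Agent.H.Enflo.C

namespace Pool.Agent.Results.MP_2b2a50_an.Main

open Filter Topology Set

/-- A real Banach space. -/
structure Ban where
  X : Type
  [g : NormedAddCommGroup X]
  [s : NormedSpace ℝ X]
  [c : CompleteSpace X]

attribute [instance] Ban.g Ban.s Ban.c

/-- Bounded operators. -/
abbrev Op (E F : Ban) : Type := E.X →L[ℝ] F.X

/-- Finite rank. -/
def FR {E F : Ban} (T : Op E F) : Prop :=
  FiniteDimensional ℝ (LinearMap.range T.toLinearMap)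

/-- A class of operators with a real function on operators. -/
structure OpIdeal where
  mem : ∀ {E F : Ban}, Op E F → Prop
  nrm : ∀ {E F : Ban}, Op E F → ℝ

/-- Linear subspaces containing the finite-rank operators. -/
def Sub (A : OpIdeal) : Prop := ∀ E F : Ban,
  (∀ S T : Op E F, A.mem S → A.mem T → A.mem (S + T)) ∧
  (∀ (c : ℝ) (T : Op E F), A.mem T → A.mem (c • T)) ∧ ∀ T : Op E F, FR T → A.mem T

/-- `nrm` is a norm on each component. -/
def Nrm (A : OpIdeal) : Prop := ∀ E F : Ban,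
  (∀ S T : Op E F, A.mem S → A.mem T → A.nrm (S + T) ≤ A.nrm S + A.nrm T) ∧
  (∀ (c : ℝ) (T : Op E F), A.mem T → A.nrm (c • T) = |c| * A.nrm T) ∧
  ∀ T : Op E F, A.mem T → T ≠ 0 → 0 < A.nrm T

/-- The norm is complete. -/
def Cpl (A : OpIdeal) : Prop := ∀ (E F : Ban) (T : ℕ → Op E F), (∀ n, A.mem (T n)) →
  (∀ ε > 0, ∃ N, ∀ m ≥ N, ∀ n ≥ N, A.nrm (T m - T n) < ε) →
  ∃ S, A.mem S ∧ Tendsto (fun n => A.nrm (T n - S)) atTop (𝓝 0)

/-- Rank-one operators and the ideal property. -/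
def Idl (A : OpIdeal) : Prop :=
  (∀ (E F : Ban) (f : E.X →L[ℝ] ℝ) (y : F.X), A.nrm (f.smulRight y : Op E F) = ‖f‖ * ‖y‖) ∧
  ∀ (D E F G : Ban) (R : Op F G) (T : Op E F) (S : Op D E), A.mem T →
    A.mem (R.comp (T.comp S) : Op D G) ∧
      A.nrm (R.comp (T.comp S) : Op D G) ≤ ‖R‖ * A.nrm T * ‖S‖

/-- The `l`-BAP for the ideal `A`. -/
def BAP (A : OpIdeal) (l : ℝ) (E : Ban) : Prop :=
  ∀ (F : Ban) (T : Op E F), A.mem T →
    ∃ (ι : Type) (_ : Preorder ι) (_ : IsDirectedOrder ι) (_ : Nonempty ι)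
      (S : ι → Op E E), (∀ a, FR (S a)) ∧
      (∀ K : Set E.X, IsCompact K → ∀ ε > 0, ∀ᶠ a in atTop, ∀ x ∈ K, ‖S a x - x‖ ≤ ε) ∧
      ∀ ε > 0, ∀ᶠ a in atTop, A.nrm (T.comp (S a) : Op E F) ≤ l * A.nrm T + ε

/-- Condition `(P_l)` for the ideal `A`. -/
def PC (A : OpIdeal) (l : ℝ) (E : Ban) : Prop :=
  ∀ (F : Ban) (T : Op E F), A.mem T →
    ∃ (ι : Type) (_ : Preorder ι) (_ : IsDirectedOrder ι) (_ : Nonempty ι)
      (S : ι → Op E F), (∀ a, FR (S a)) ∧
      (∀ x, Tendsto (fun a => ‖S a x - T x‖) atTop (𝓝 0)) ∧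
      ∀ ε > 0, ∀ᶠ a in atTop, A.nrm (S a) ≤ l * A.nrm T + ε

open Pool.Agent.H.Enflo

theorem fadd {E F : Ban} {S T : E.X →L[ℝ] F.X} (h : FR S) (k : FR T) : FR (S + T) := by
  unfold FR at *
  exact Submodule.finiteDimensional_of_le (LinearMap.range_add_le S.toLinearMap T.toLinearMap)

theorem fcomp {D E F G : Ban} (R : F.X →L[ℝ] G.X) {T : E.X →L[ℝ] F.X} (S : D.X →L[ℝ] E.X)
    (h : FR T) : FR (R.comp (T.comp S)) := by
  unfold FR at *
  refine Submodule.finiteDimensional_of_le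
    (S₂ := (LinearMap.range T.toLinearMap).map R.toLinearMap) ?_
  rintro _ ⟨x, rfl⟩
  exact ⟨_, ⟨S x, rfl⟩, rfl⟩

theorem fsm {E F : Ban} (c : ℝ) {T : E.X →L[ℝ] F.X} (h : FR T) : FR (c • T) := by
  unfold FR at *
  refine Submodule.finiteDimensional_of_le (S₂ := LinearMap.range T.toLinearMap) ?_
  rintro _ ⟨x, rfl⟩
  exact ⟨c • x, by simp⟩

noncomputable def App : OpIdeal where
  mem T := T ∈ closure {S | FR S}
  nrm T := ‖T‖

theorem app : Sub App ∧ Nrm App ∧ Cpl App ∧ Idl App := by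
  refine ⟨fun E F => ⟨fun S T h k => map_mem_closure₂ continuous_add h k fun _ a _ b => fadd a b,
    fun c T h => map_mem_closure (continuous_const_smul c) h fun _ a => fsm c a,
    fun T h => subset_closure h⟩, fun E F => ⟨fun S T _ _ => norm_add_le S T,
    fun c T _ => norm_smul c T, fun T _ h => norm_pos_iff.2 h⟩, fun E F T h k => ?_,
    fun E F f y => f.norm_smulRight_apply y, fun D E F G R T S h =>
    ⟨map_mem_closure (f := fun T : Op E F => R.comp (T.comp S)) (by fun_prop) h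
    fun _ a => fcomp R S a, (R.opNorm_comp_le _).trans (by
      rw [mul_assoc]; exact mul_le_mul_of_nonneg_left (T.opNorm_comp_le S) (norm_nonneg _))⟩⟩
  obtain ⟨S, hS⟩ := cauchySeq_tendsto_of_complete (u := T)
    (Metric.cauchySeq_iff.2 (by simp only [dist_eq_norm]; exact k))
  exact ⟨S, isClosed_closure.mem_of_tendsto hS (Eventually.of_forall h),
    tendsto_iff_norm_sub_tendsto_zero.1 hS⟩

theorem result (l : ℝ) (hl : 1 ≤ l) : ∃ (A : OpIdeal) (E : Ban),
    (Sub A ∧ Nrm A ∧ Cpl A ∧ Idl A) ∧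
    (∃ (C : ℝ) (P : ℕ → Op E E), (∀ n, FR (P n)) ∧ (∀ n, ‖P n‖ ≤ C) ∧
      ∀ x, Tendsto (fun n => P n x) atTop (𝓝 x)) ∧ PC A l E ∧ ¬ BAP A l E := by
  obtain ⟨Z, _, _, _, φ, y, c, h⟩ := spc
  obtain ⟨γ, γ0, γ1, γ2⟩ := dini c h.c0 h.cs
  let F : Ban := ⟨lp (fun _ : ℕ => ℝ) ⊤⟩
  obtain ⟨D, D1, D2⟩ : ∃ D : Z →L[ℝ] F.X, (∀ z j, D z j = γ j * φ j z) ∧
      D ∈ closure {S : Z →L[ℝ] F.X | FiniteDimensional ℝ (LinearMap.range S.toLinearMap)} := by
    obtain ⟨M, hM⟩ := γ1.bddAbove_range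
    have b : ∀ z j, ‖γ j * φ j z‖ ≤ M * ‖z‖ := fun z j => by
      rw [norm_mul, Real.norm_of_nonneg (γ0 j).le]
      exact mul_le_mul (hM ⟨j, rfl⟩) (h.f1 j z) (norm_nonneg _) ((γ0 j).le.trans (hM ⟨j, rfl⟩))
    let D0 : Z →ₗ[ℝ] lp (fun _ : ℕ => ℝ) ⊤ :=
      { toFun := fun z => ⟨fun j => γ j * φ j z, memℓp_infty ⟨_, by rintro _ ⟨j, rfl⟩; exact b z j⟩⟩
        map_add' := fun a b => by ext j; simp [mul_add]
        map_smul' := fun a b => by ext j; simp [mul_left_comm] }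
    let D : Z →L[ℝ] lp (fun _ : ℕ => ℝ) ⊤ := D0.mkContinuous M fun z =>
      lp.norm_le_of_forall_le ((norm_nonneg _).trans (b z 0)) (b z)
    refine ⟨D, fun _ _ => rfl, Metric.mem_closure_iff.2 fun ε e0 => ?_⟩
    obtain ⟨N, hN⟩ := eventually_atTop.1 (γ1.eventually_le_const (half_pos e0))
    refine ⟨∑ i ∈ Finset.range N, (γ i • φ i).smulRight (lp.single ⊤ i (1 : ℝ)), ?_, ?_⟩
    · have := FiniteDimensional.span_of_finite ℝ ((finite_Iio N).image
        fun i => (lp.single ⊤ i (1 : ℝ) : lp (fun _ : ℕ => ℝ) ⊤))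
      refine Submodule.finiteDimensional_of_le (S₂ := Submodule.span ℝ ((fun i =>
        (lp.single ⊤ i (1 : ℝ) : lp (fun _ : ℕ => ℝ) ⊤)) '' Iio N)) ?_
      rintro _ ⟨z, rfl⟩
      rw [ContinuousLinearMap.coe_coe, _root_.sum_apply]
      exact Submodule.sum_mem _ fun i hi => Submodule.smul_mem _ _
        (Submodule.subset_span ⟨i, Finset.mem_range.1 hi, rfl⟩)
    · rw [dist_eq_norm]
      refine lt_of_le_of_lt (ContinuousLinearMap.opNorm_le_bound _ (half_pos e0).le fun z =>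
        lp.norm_le_of_forall_le (by positivity) fun j => ?_) (half_lt_self e0)
      have e1 : ∀ u v : lp (fun _ : ℕ => ℝ) ⊤, (u - v) j = u j - v j := fun _ _ => rfl
      have e2 : (∑ i ∈ Finset.range N, (γ i * φ i z) • (lp.single ⊤ i (1 : ℝ) :
          lp (fun _ : ℕ => ℝ) ⊤)) j = if j < N then γ j * φ j z else 0 := by
        rw [lp.coeFn_sum, Finset.sum_apply]
        simp only [lp.coeFn_smul, Pi.smul_apply, lp.single_apply, Pi.single_apply, smul_eq_mul,
          mul_ite, mul_one, mul_zero, Finset.sum_ite_eq, Finset.mem_range]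
      rw [_root_.sub_apply, _root_.sum_apply]
      refine (congrArg norm ((e1 _ _).trans (congrArg₂ (· - ·)
        (show _ = γ j * φ j z from rfl) e2))).trans_le ?_
      split_ifs with k
      · rw [sub_self, norm_zero]; positivity
      · rw [sub_zero, norm_mul, Real.norm_of_nonneg (γ0 j).le]
        exact mul_le_mul (hN j (not_lt.1 k)) (h.f1 j z) (norm_nonneg _) (half_pos e0).le
  obtain ⟨L, L2, L3⟩ : ∃ L : ℝ, 2 ≤ L ∧ 4 * ((l * ‖D‖ + 1) * ∑' k, c k / γ k) ≤ L :=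
    ⟨_, le_max_left _ _, le_max_right _ _⟩
  obtain ⟨Y, _, _, _, q, η, lf⟩ := lif h L2
  refine ⟨App, ⟨Y⟩, app, ?_, fun F T hT => ?_, fun hB => ?_⟩
  · obtain ⟨P, P0, P1, P2⟩ := lf.ap
    exact ⟨L, P, P0, fun n => (P n).opNorm_le_bound (by linarith) (P1 n), P2⟩
  · obtain ⟨S, S1, S2⟩ := mem_closure_iff_seq_limit.1 hT
    refine ⟨ℕ, inferInstance, inferInstance, inferInstance, S, S1, fun x => ?_, fun ε e0 => ?_⟩
    · exact tendsto_iff_norm_sub_tendsto_zero.1
        (((ContinuousLinearMap.apply ℝ _ x).continuous.tendsto _).comp S2)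
    · refine (S2.norm.eventually_le_const (show ‖T‖ < l * ‖T‖ + ε by
        nlinarith [norm_nonneg T]))
  · obtain ⟨ι, _, _, _, S, S0, S1, S2⟩ := hB F (D.comp q) (map_mem_closure
      (f := fun T : Z →L[ℝ] F.X => T.comp q) (by fun_prop) D2 fun T a =>
        fcomp (D := ⟨Y⟩) (E := ⟨Z⟩) (ContinuousLinearMap.id ℝ _) q a)
    have c1 : 0 ≤ ∑' k, c k := tsum_nonneg h.c0
    obtain ⟨a, a1, a2⟩ := ((S1 _ (squeeze_zero_norm lf.e1
      (by simpa using h.y0.norm)).isCompact_insert_range (4 * (∑' k, c k + 1))⁻¹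
      (by positivity)).and (S2 1 one_pos)).exists
    have q1 : ‖D.comp q‖ ≤ ‖D‖ := (D.opNorm_comp_le q).trans (mul_le_of_le_one_right
      (norm_nonneg _) (q.opNorm_le_bound zero_le_one (by simpa using lf.q1)))
    have a3 : ‖(D.comp q).comp (S a)‖ ≤ l * ‖D‖ + 1 :=
      a2.trans (add_le_add_left (mul_le_mul_of_nonneg_left q1 (by linarith)) 1)
    obtain ⟨κ, _, ψ, x, hx⟩ := fr (S a) (S0 a)
    have hx' : ∀ k w, ∑ i, c k * φ k (q (S a (x i))) * ψ i w = c k * φ k (q (S a w)) :=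
      fun k w => by
        rw [hx w, map_sum, map_sum, Finset.mul_sum]
        exact Finset.sum_congr rfl fun i _ => by simp; ring
    have b : ∀ k, ‖c k * φ k (q (S a (η k) - η k))‖ ≤ c k * (4 * (∑' k, c k + 1))⁻¹ := fun k => by
      rw [norm_mul, Real.norm_of_nonneg (h.c0 k)]
      exact mul_le_mul_of_nonneg_left ((h.f1 _ _).trans ((lf.q1 _).trans
        (a1 _ (Or.inr ⟨k, rfl⟩)))) (h.c0 k)
    have s1 := Summable.of_norm_bounded (h.cs.mul_right _) b
    have s2 := tsum_of_norm_bounded (h.cs.mul_right _).hasSum b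
    have s3 : Summable fun k => c k * φ k (y k) := by
      by_contra k
      have := h.tr
      rw [tsum_eq_zero_of_not_summable k] at this
      exact zero_ne_one this
    have s4 := s1.hasSum.add s3.hasSum
    have sm := small lf (by linarith) ψ (fun i k => c k * φ k (q (S a (x i)))) (fun i => h.sq _)
      (fun k => (l * ‖D‖ + 1) * (c k / γ k))
      (fun k => mul_nonneg ((norm_nonneg _).trans a3) (div_nonneg (h.c0 k) (γ0 k).le))
      (γ2.mul_left _) (fun k w => by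
        have k1 := (lp.norm_apply_le_norm ENNReal.top_ne_zero (D (q (S a w))) k).trans
          (((D.comp q).comp (S a)).le_of_opNorm_le a3 w)
        rw [D1, norm_mul, Real.norm_of_nonneg (γ0 k).le, ← le_div_iff₀' (γ0 k)] at k1
        rw [hx', abs_mul, abs_of_nonneg (h.c0 k)]
        exact (mul_le_mul_of_nonneg_left k1 (h.c0 k)).trans (le_of_eq (by ring)))
      (by simpa only [hx', map_sub, lf.qe, mul_sub, sub_add_cancel] using s4)
    rw [tsum_mul_left, h.tr, le_inv_mul_iff₀ (by linarith)] at sm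
    rw [tsum_mul_right] at s2
    have s5 : (∑' k, c k) * (4 * (∑' k, c k + 1))⁻¹ ≤ 1 / 4 := by
      rw [← div_eq_mul_inv, div_le_iff₀ (by positivity)]
      linarith
    have s6 := (abs_le.1 (s2.trans s5)).1
    simp only [map_sub, lf.qe, mul_sub] at s6
    nlinarith [le_abs_self (∑' k, (c k * φ k (q (S a (η k))) - c k * φ k (y k)) + 1)]

end Pool.Agent.Results.MP_2b2a50_an.Main
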